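import Mathlib
import Pool.Agent.Helper44.QB.Step
import Pool.Agent.Helper67.QB.Acyclic

/-!
PROJECT QB, leaf (W): the projections to the weight and to the degree.

`cwm φ`: the additive map acting on the coordinate `m` by `φ m`.
`piW 𝒜 w p`: the projection to the weight `p`.
`piD δ n`: the projection to the degree `n` (`R`-linear).
-/

set_option autoImplicit false

open scoped TensorProduct
open Pool.Agent.Helper44.QA Pool.Agent.Helper44.QB

namespace Pool.Agent.Helper65.QB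

universe u

variable {k R : Type u} [Field k] [CommRing R] [Algebra k R]
  {O : Type} [Fintype O] [LinearOrder O] {b : ℕ}

/-! ### Coordinatewise maps -/

theorem co_sum_smul (s : Finset (Mo O b)) (f : Mo O b → R) (m : Mo O b) :
    co m (∑ m' ∈ s, f m' • (mon m' : AA R O b)) = if m ∈ s then f m else 0 := by
  classical
  rw [map_sum]
  have h : ∀ m' ∈ s, co m (f m' • (mon m' : AA R O b)) = if m = m' then f m' else 0 := by
    intro m' _
    rw [map_smul, co_mon, smul_eq_mul]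
    by_cases h : m = m'
    · rw [if_pos h, if_pos h.symm, mul_one]
    · rw [if_neg h, if_neg (Ne.symm h), mul_zero]
  rw [Finset.sum_congr rfl h, Finset.sum_ite_eq]

/-- The function underlying `cwm`. -/
noncomputable def cwf (φ : Mo O b → R →+ R) (x : AA R O b) : AA R O b :=
  ∑ m ∈ (exists_sum x).choose, φ m (co m x) • mon m

theorem co_cwf (φ : Mo O b → R →+ R) (x : AA R O b) (m : Mo O b) :
    co m (cwf φ x) = φ m (co m x) := by
  classical
  unfold cwf
  rw [co_sum_smul]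
  by_cases h : m ∈ (exists_sum x).choose
  · rw [if_pos h]
  · rw [if_neg h, (exists_sum x).choose_spec.2 m h, map_zero]

/-- The additive map acting on the coordinate `m` by `φ m`. -/
noncomputable def cwm (φ : Mo O b → R →+ R) : AA R O b →+ AA R O b where
  toFun := cwf φ
  map_zero' := by
    apply co_ext
    intro m
    rw [co_cwf, map_zero, map_zero]
  map_add' x y := by
    apply co_ext
    intro m
    rw [co_cwf, map_add, map_add, map_add, co_cwf, co_cwf]

theorem co_cwm (φ : Mo O b → R →+ R) (x : AA R O b) (m : Mo O b) :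
    co m (cwm φ x) = φ m (co m x) := co_cwf φ x m

/-! ### The component of an element of a graded ring, integer degree -/

section comp

variable (𝒜 : ℕ → Submodule k R) [GradedAlgebra 𝒜]

/-- The component of degree `q`, zero for negative `q`. -/
noncomputable def cmp (q : ℤ) : R →+ R := if 0 ≤ q then GradedRing.proj 𝒜 q.toNat else 0

theorem cmp_mem (q : ℤ) (r : R) : cmp 𝒜 q r ∈ AZ 𝒜 q := by
  unfold cmp AZ
  by_cases h : 0 ≤ q
  · rw [if_pos h, if_pos h, GradedRing.proj_apply]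
    exact SetLike.coe_mem _
  · rw [if_neg h, if_neg h]
    exact Submodule.zero_mem _

theorem cmp_eq {q : ℤ} {r : R} (hr : r ∈ AZ 𝒜 q) : cmp 𝒜 q r = r := by
  unfold AZ at hr
  unfold cmp
  by_cases h : 0 ≤ q
  · rw [if_pos h] at hr ⊢
    rw [GradedRing.proj_apply, DirectSum.decompose_of_mem_same 𝒜 hr]
  · rw [if_neg h] at hr ⊢
    rw [Submodule.mem_bot] at hr
    rw [hr, map_zero]

theorem cmp_ne {p q : ℤ} (hpq : p ≠ q) {r : R} (hr : r ∈ AZ 𝒜 p) : cmp 𝒜 q r = 0 := by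
  unfold AZ at hr
  unfold cmp
  by_cases h : 0 ≤ q
  · rw [if_pos h]
    by_cases h' : 0 ≤ p
    · rw [if_pos h'] at hr
      rw [GradedRing.proj_apply, DirectSum.decompose_of_mem_ne 𝒜 hr]
      omega
    · rw [if_neg h', Submodule.mem_bot] at hr
      rw [hr, map_zero]
  · rw [if_neg h]
    rfl

theorem cmp_sum (r : R) (l : ℕ) : ∃ N : ℕ, ∀ N', N ≤ N' →
    r = ∑ p ∈ Finset.range N', cmp 𝒜 ((p : ℤ) - l) r := by
  classical
  induction r using DirectSum.Decomposition.inductionOn 𝒜 with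
  | zero => exact ⟨0, fun N' _ => by simp⟩
  | homogeneous r =>
    rename_i i
    refine ⟨i + l + 1, fun N' hN' => ?_⟩
    have hr : (r : R) ∈ AZ 𝒜 (i : ℤ) := by
      rw [AZ_nat]
      exact r.2
    rw [Finset.sum_eq_single (i + l)]
    · have : (((i + l : ℕ) : ℤ) - l) = i := by push_cast; ring
      rw [this, cmp_eq 𝒜 hr]
    · intro p _ hp
      refine cmp_ne 𝒜 ?_ hr
      omega
    · intro h
      exact absurd (Finset.mem_range.2 (by omega)) h
  | add x y hx hy =>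
    obtain ⟨N, hN⟩ := hx
    obtain ⟨N', hN'⟩ := hy
    refine ⟨max N N', fun N'' h => ?_⟩
    nth_rewrite 1 [hN N'' ((le_max_left _ _).trans h), hN' N'' ((le_max_right _ _).trans h)]
    rw [← Finset.sum_add_distrib]
    exact Finset.sum_congr rfl fun p _ => (map_add _ _ _).symm

end comp

/-! ### Weights -/

section weight

variable (𝒜 : ℕ → Submodule k R) [GradedAlgebra 𝒜] (w : O ⊕ Fin b → ℤ)

/-- The projection to the weight `p`. -/
noncomputable def piW (p : ℕ) : AA R O b →+ AA R O b := cwm fun m => cmp 𝒜 ((p : ℤ) - lin w m)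

theorem co_piW (p : ℕ) (x : AA R O b) (m : Mo O b) :
    co m (piW 𝒜 w p x) = cmp 𝒜 ((p : ℤ) - lin w m) (co m x) := co_cwm _ _ _

/-- The elements of weight `p`. -/
noncomputable abbrev Ww (p : ℕ) : AddSubgroup (AA R O b) :=
  (Pc fun m => AZ 𝒜 ((p : ℤ) - lin w m)).toAddSubgroup

theorem piW_mem (p : ℕ) (x : AA R O b) : piW 𝒜 w p x ∈ Ww 𝒜 w p := by
  intro m
  rw [co_piW]
  exact cmp_mem 𝒜 _ _

theorem piW_eq (p : ℕ) {x : AA R O b} (hx : x ∈ Ww 𝒜 w p) : piW 𝒜 w p x = x := by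
  apply co_ext
  intro m
  rw [co_piW]
  exact cmp_eq 𝒜 (hx m)

theorem piW_ne {p q : ℕ} (hpq : p ≠ q) {x : AA R O b} (hx : x ∈ Ww 𝒜 w p) :
    piW 𝒜 w q x = 0 := by
  apply co_ext
  intro m
  rw [co_piW, map_zero]
  exact cmp_ne 𝒜 (by omega) (hx m)

theorem piW_fin (hw : ∀ g, 0 ≤ w g) (x : AA R O b) :
    ∃ N, x = ∑ p ∈ Finset.range N, piW 𝒜 w p x := by
  classical
  obtain ⟨s, -, hs0⟩ := exists_sum x
  have h : ∀ m : Mo O b, ∃ N : ℕ, ∀ N', N ≤ N' →
      co m x = ∑ p ∈ Finset.range N', cmp 𝒜 ((p : ℤ) - lin w m) (co m x) := by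
    intro m
    obtain ⟨l, hl⟩ := Int.eq_ofNat_of_zero_le (lin_nonneg hw m)
    rw [hl]
    exact cmp_sum 𝒜 _ l
  choose N hN using h
  refine ⟨s.sup N, ?_⟩
  apply co_ext
  intro m
  rw [map_sum]
  simp only [co_piW]
  by_cases hm : m ∈ s
  · exact hN m _ (Finset.le_sup hm)
  · rw [hs0 m hm]
    simp

/-- The projections to the weights. -/
theorem wt_piW (hw : ∀ g, 0 ≤ w g) :
    Pool.Agent.Helper67.QB.Wt 𝒜 (fun p => Ww (b := b) 𝒜 w p) (piW 𝒜 w) where
  smul i j a ha x hx m := by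
    rw [map_smul, smul_eq_mul]
    have h1 : a ∈ AZ 𝒜 (i : ℤ) := by
      rw [AZ_nat]
      exact ha
    have := AZ_mul 𝒜 h1 (hx m)
    rwa [show (i : ℤ) + ((j : ℤ) - lin w m) = ((i + j : ℕ) : ℤ) - lin w m by push_cast; ring]
      at this
  mem := piW_mem 𝒜 w
  eq p x hx := piW_eq 𝒜 w p hx
  ne p q hpq x hx := piW_ne 𝒜 w hpq hx
  fin := piW_fin 𝒜 w hw

/-- The projection to the weight `p` maps `Ft` to `Fw`. -/
theorem piW_Ft {δ : O ⊕ Fin b → ℤ} {S : Set (O ⊕ Fin b)} {n : ℤ} (p : ℕ) {x : AA R O b}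
    (hx : x ∈ Ft k δ S n) : piW 𝒜 w p x ∈ Fw 𝒜 δ w S n p := by
  intro m
  refine mem_Cd.2 ⟨fun h0 => (mem_Cd.1 (hx m)).1 fun h => h0 ?_, ?_⟩
  · rw [co_piW, h, map_zero]
  · rw [co_piW]
    exact cmp_mem 𝒜 _ _

omit [GradedAlgebra 𝒜] in
theorem Fw_le_Ft {δ : O ⊕ Fin b → ℤ} {S : Set (O ⊕ Fin b)} {n p : ℤ} {x : AA R O b}
    (hx : x ∈ Fw 𝒜 δ w S n p) : x ∈ Ft k δ S n :=
  Pc_mono subset_rfl (fun _ _ _ => le_top) hx

theorem piW_Ft' {δ : O ⊕ Fin b → ℤ} {S : Set (O ⊕ Fin b)} {n : ℤ} (p : ℕ) {x : AA R O b}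
    (hx : x ∈ Ft k δ S n) : piW 𝒜 w p x ∈ Ft k δ S n := Fw_le_Ft 𝒜 w (piW_Ft 𝒜 w p hx)

omit [GradedAlgebra 𝒜] in
theorem mem_Fw_iff {δ : O ⊕ Fin b → ℤ} {S : Set (O ⊕ Fin b)} {n : ℤ} {p : ℕ} {x : AA R O b} :
    x ∈ Fw 𝒜 δ w S n p ↔ x ∈ Ft k δ S n ∧ x ∈ Ww 𝒜 w p := by
  constructor
  · intro hx
    exact ⟨Pc_mono subset_rfl (fun _ _ _ => le_top) hx, fun m => (mem_Cd.1 (hx m)).2⟩
  · rintro ⟨h1, h2⟩ m
    exact mem_Cd.2 ⟨(mem_Cd.1 (h1 m)).1, h2 m⟩

variable {𝒜 w} {δ : O ⊕ Fin b → ℤ} {T : DD R O b}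

/-- The differential preserves the weight. -/
theorem d_Ww (hT : Gr 𝒜 δ w T) (p : ℕ) {x : AA R O b} (hx : x ∈ Ww 𝒜 w p) :
    T.d x ∈ Ww 𝒜 w p := by
  classical
  unfold DD.d
  rw [LinearMap.sum_apply]
  refine AddSubgroup.sum_mem _ fun g _ => ?_
  rw [LinearMap.comp_apply, LinearMap.mulLeft_apply]
  have h0 : x ∈ Pc (Cd (fun _ => 0) Set.univ 0 fun m => AZ 𝒜 ((p : ℤ) - lin w m)) := by
    intro m
    refine mem_Cd.2 ⟨fun _ => ⟨⟨fun _ _ => Set.mem_univ _, fun _ _ => Set.mem_univ _⟩, ?_⟩, hx m⟩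
    unfold lin
    simp
  have h1 := dd_mem (φ' := fun m => if Fre g m then AZ 𝒜 ((p : ℤ) - lin w (ins g m)) else ⊥)
    (fun m hm => by rw [if_pos hm]) h0
  refine Pc_mul ?_ (C := fun m => AZ 𝒜 (w g - lin w m))
    (C' := fun m => if Fre g m then AZ 𝒜 ((p : ℤ) - lin w (ins g m)) else ⊥)
    (fun m => (mem_Cd.1 (hT.val g m)).2) (fun m => ?_)
  · intro m m' hd r hr r' hr'
    by_cases hf : Fre g m'
    · rw [if_pos hf, lin_ins w hf] at hr'
      have := AZ_mul 𝒜 hr hr'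
      rw [lin_madd w hd]
      rwa [show w g - lin w m + ((p : ℤ) - (lin w m' + w g)) = p - (lin w m + lin w m') by ring]
        at this
    · rw [if_neg hf, Submodule.mem_bot] at hr'
      rw [hr', mul_zero]
      exact Submodule.zero_mem _
  · exact (mem_Cd.1 (h1 m)).2

/-- The projection to the weight `p` commutes with the differential. -/
theorem d_piW (hT : Gr 𝒜 δ w T) (p : ℕ) (x : AA R O b) :
    T.d (piW 𝒜 w p x) = piW 𝒜 w p (T.d x) := by
  classical
  obtain ⟨N, hN⟩ := piW_fin 𝒜 w (fun g => zero_le_one.trans (hT.wpos g)) x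
  have h1 : ∀ N : ℕ, piW 𝒜 w p (T.d (∑ q ∈ Finset.range N, piW 𝒜 w q x)) =
      if p < N then T.d (piW 𝒜 w p x) else 0 := by
    intro N
    rw [map_sum, map_sum]
    have h2 : ∀ q ∈ Finset.range N, piW 𝒜 w p (T.d (piW 𝒜 w q x)) =
        if p = q then T.d (piW 𝒜 w p x) else 0 := by
      intro q _
      have h3 := d_Ww hT q (piW_mem 𝒜 w q x)
      by_cases h : p = q
      · subst h
        rw [if_pos rfl, piW_eq 𝒜 w p h3]
      · rw [if_neg h, piW_ne 𝒜 w (Ne.symm h) h3]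
    rw [Finset.sum_congr rfl h2, Finset.sum_ite_eq]
    simp only [Finset.mem_range]
  have h4 := h1 N
  rw [← hN] at h4
  rw [h4]
  by_cases h : p < N
  · rw [if_pos h]
  · rw [if_neg h]
    have h5 : piW 𝒜 w p x = 0 := by
      rw [hN, map_sum]
      refine Finset.sum_eq_zero fun q hq => ?_
      refine piW_ne 𝒜 w ?_ (piW_mem 𝒜 w q x)
      rintro rfl
      exact h (Finset.mem_range.1 hq)
    rw [h5, map_zero]

end weight

/-! ### Degrees -/

section degree

variable (δ : O ⊕ Fin b → ℤ)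

/-- The projection to the degree `n`. -/
noncomputable def piD (n : ℤ) : AA R O b →ₗ[R] AA R O b where
  toFun := cwm fun m => if lin δ m = n then AddMonoidHom.id R else 0
  map_add' := map_add _
  map_smul' r x := by
    apply co_ext
    intro m
    change co m (cwm _ (r • x)) = co m (r • cwm _ x)
    rw [co_cwm, (co m).map_smul, (co m).map_smul, co_cwm]
    by_cases h : lin δ m = n
    · simp only [if_pos h]
      rfl
    · simp only [if_neg h]
      rw [AddMonoidHom.zero_apply, AddMonoidHom.zero_apply, smul_zero]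

theorem co_piD (n : ℤ) (x : AA R O b) (m : Mo O b) :
    co m (piD δ n x) = if lin δ m = n then co m x else 0 := by
  refine (co_cwm _ _ _).trans ?_
  split_ifs
  · rfl
  · rfl

/-- The projection to the degree `n` of an element supported in `S`. -/
theorem piD_mem {S : Set (O ⊕ Fin b)} (n : ℤ) {x : AA R O b}
    (hx : ∀ m, co m x ≠ 0 → SuppIn S m) : piD δ n x ∈ Ft k δ S n := by
  intro m
  refine mem_Cd.2 ⟨fun h0 => ?_, Submodule.mem_top⟩
  rw [co_piD] at h0
  by_cases h : lin δ m = n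
  · rw [if_pos h] at h0
    exact ⟨hx m h0, h⟩
  · rw [if_neg h] at h0
    exact absurd rfl h0

theorem piD_supp {S : Set (O ⊕ Fin b)} (n : ℤ) {x : AA R O b}
    (hx : ∀ m, co m x ≠ 0 → SuppIn S m) (m : Mo O b) (h : co m (piD δ n x) ≠ 0) :
    SuppIn S m := by
  refine hx m fun h0 => h ?_
  rw [co_piD, h0]
  simp

theorem piD_eq {S : Set (O ⊕ Fin b)} {n : ℤ} {x : AA R O b} (hx : x ∈ Ft k δ S n) :
    piD δ n x = x := by
  apply co_ext
  intro m
  rw [co_piD]
  by_cases h : lin δ m = n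
  · rw [if_pos h]
  · rw [if_neg h]
    by_contra h0
    exact h ((mem_Cd.1 (hx m)).1 (Ne.symm h0)).2

theorem piD_ne {S : Set (O ⊕ Fin b)} {n n' : ℤ} (hn : n ≠ n') {x : AA R O b}
    (hx : x ∈ Ft k δ S n) : piD δ n' x = 0 := by
  apply co_ext
  intro m
  rw [co_piD, map_zero]
  by_cases h : lin δ m = n'
  · rw [if_pos h]
    by_contra h0
    exact hn (((mem_Cd.1 (hx m)).1 h0).2.symm.trans h)
  · rw [if_neg h]

theorem piD_fin (x : AA R O b) :
    ∃ I : Finset ℤ, x = ∑ n ∈ I, piD δ n x ∧ ∀ n ∉ I, piD δ n x = 0 := by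
  classical
  obtain ⟨s, -, hs0⟩ := exists_sum x
  refine ⟨s.image (lin δ), ?_, ?_⟩
  · apply co_ext
    intro m
    rw [map_sum]
    simp only [co_piD]
    rw [Finset.sum_ite_eq]
    by_cases h : lin δ m ∈ s.image (lin δ)
    · rw [if_pos h]
    · rw [if_neg h]
      exact hs0 m fun hm => h (Finset.mem_image_of_mem _ hm)
  · intro n hn
    apply co_ext
    intro m
    rw [co_piD, map_zero]
    by_cases h : lin δ m = n
    · rw [if_pos h]
      refine hs0 m fun hm => hn ?_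
      rw [← h]
      exact Finset.mem_image_of_mem _ hm
    · rw [if_neg h]

/-- The differential lowers the degree by one. -/
theorem d_piD {𝒜 : ℕ → Submodule k R} {w : O ⊕ Fin b → ℤ} {T : DD R O b} (hT : Gr 𝒜 δ w T)
    (n : ℤ) (x : AA R O b) : T.d (piD δ (n + 1) x) = piD δ n (T.d x) := by
  classical
  have hcl : Cl k δ T Set.univ := fun g _ =>
    Pc_mono subset_rfl (fun _ _ _ => le_top) (hT.val g)
  have hu : ∀ m, co m x ≠ 0 → SuppIn Set.univ m := fun m _ =>
    ⟨fun _ _ => Set.mem_univ _, fun _ _ => Set.mem_univ _⟩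
  obtain ⟨I, hI, hI0⟩ := piD_fin δ x
  have h1 : ∀ I : Finset ℤ, piD δ n (T.d (∑ q ∈ I, piD δ q x)) =
      if n + 1 ∈ I then T.d (piD δ (n + 1) x) else 0 := by
    intro I
    rw [map_sum, map_sum]
    have h2 : ∀ q ∈ I, piD δ n (T.d (piD δ q x)) =
        if n + 1 = q then T.d (piD δ (n + 1) x) else 0 := by
      intro q _
      have h3 := d_Ft hcl (piD_mem (k := k) δ q hu)
      by_cases h : n + 1 = q
      · subst h
        rw [add_sub_cancel_right] at h3
        rw [if_pos rfl, piD_eq δ h3]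
      · rw [if_neg h, piD_ne δ (by omega) h3]
    rw [Finset.sum_congr rfl h2, Finset.sum_ite_eq]
  have h4 := h1 I
  rw [← hI] at h4
  rw [h4]
  by_cases h : n + 1 ∈ I
  · rw [if_pos h]
  · rw [if_neg h, hI0 _ h, map_zero]

/-- The projections to the degree and to the weight commute. -/
theorem piD_piW (𝒜 : ℕ → Submodule k R) [GradedAlgebra 𝒜] (w : O ⊕ Fin b → ℤ) (n : ℤ) (p : ℕ)
    (x : AA R O b) : piD δ n (piW 𝒜 w p x) = piW 𝒜 w p (piD δ n x) := by
  apply co_ext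
  intro m
  rw [co_piD, co_piW, co_piW, co_piD]
  split_ifs
  · rfl
  · rw [map_zero]

/-- The differential of an element of `Ft k δ S n` is zero if its degree `n` is zero. -/
theorem d_Ft_zero {𝒜 : ℕ → Submodule k R} {w : O ⊕ Fin b → ℤ} {T : DD R O b}
    (hT : Gr 𝒜 δ w T) {S : Set (O ⊕ Fin b)} {n : ℤ} (hn : n ≤ 0) {x : AA R O b}
    (hx : x ∈ Ft k δ S n) : T.d x = 0 := by
  have hcl : Cl k δ T Set.univ := fun g _ =>
    Pc_mono subset_rfl (fun _ _ _ => le_top) (hT.val g)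
  have h1 := d_Ft hcl (Pc_mono (Set.subset_univ S) (fun _ _ _ => le_rfl) hx)
  apply co_ext
  intro m
  rw [map_zero]
  by_contra h0
  have h2 := ((mem_Cd.1 (h1 m)).1 h0).2
  have h3 := lin_nonneg (fun g => zero_le_one.trans (hT.pos g)) m
  omega

end degree

end Pool.Agent.Helper65.QB
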