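import Mathlib
import Pool.Agent.Helper44.QB.Bdd
import Pool.Agent.Helper65.QB.PrW

/-!
PROJECT QB, leaf (Nak): exactness descends from `S ∪ P` to `S`, `P` generators of degree one
(the graded Nakayama lemma).
-/

set_option autoImplicit false

open scoped TensorProduct
open Pool.Agent.Helper44.QA Pool.Agent.Helper44.QB
open Pool.Agent.Helper67.QB (Ex)

namespace Pool.Agent.Helper65.QB

universe u

variable {k R : Type u} [Field k] [CommRing R] [Algebra k R]
  {O : Type} [Fintype O] [LinearOrder O] {b : ℕ}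
  {𝒜 : ℕ → Submodule k R} [GradedAlgebra 𝒜] {δ w : O ⊕ Fin b → ℤ} {T : DD R O b}
  {S : Set (O ⊕ Fin b)}

theorem cmp_mul {l : ℕ} {r : R} (hr : r ∈ 𝒜 l) (q : ℤ) (s : R) :
    cmp 𝒜 q (r * s) = r * cmp 𝒜 (q - l) s := by
  have hr' : r ∈ AZ 𝒜 (l : ℤ) := by
    rw [AZ_nat]
    exact hr
  induction s using DirectSum.Decomposition.inductionOn 𝒜 with
  | zero => rw [mul_zero, map_zero, map_zero, mul_zero]
  | homogeneous s =>
    rename_i i
    have hs : (s : R) ∈ AZ 𝒜 (i : ℤ) := by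
      rw [AZ_nat]
      exact s.2
    have hrs := AZ_mul 𝒜 hr' hs
    by_cases h : q = l + i
    · subst h
      rw [cmp_eq 𝒜 hrs, add_sub_cancel_left, cmp_eq 𝒜 hs]
    · rw [cmp_ne 𝒜 (Ne.symm h) hrs, cmp_ne 𝒜 (by omega) hs, mul_zero]
  | add x y hx hy => rw [mul_add, map_add, map_add, hx, hy, mul_add]

theorem cmp_neg {q : ℤ} (hq : q < 0) (s : R) : cmp 𝒜 q s = 0 := by
  have := cmp_mem 𝒜 q s
  rwa [AZ_neg 𝒜 hq, Submodule.mem_bot] at this

theorem piW_smul (hw : ∀ g, 0 ≤ w g) {l : ℕ} {r : R} (hr : r ∈ 𝒜 l) (p : ℕ) (x : AA R O b) :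
    piW 𝒜 w p (r • x) = if l ≤ p then r • piW 𝒜 w (p - l) x else 0 := by
  apply co_ext
  intro m
  rw [co_piW, map_smul, smul_eq_mul, cmp_mul hr]
  by_cases h : l ≤ p
  · rw [if_pos h, map_smul, smul_eq_mul, co_piW]
    congr 2
    push_cast [Nat.cast_sub h]
    ring_nf
  · rw [if_neg h, map_zero, cmp_neg, mul_zero]
    have := lin_nonneg hw m
    omega

omit [GradedAlgebra 𝒜] in
/-- The values of the differential on the generators of degree one. -/
theorem val_one (hT : Gr 𝒜 δ w T) {τ : O ⊕ Fin b} (hτ : δ τ = 1) {l : ℕ} (hl : w τ = l) :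
    ∃ r ∈ 𝒜 l, T τ = r • (1 : AA R O b) := by
  have h0 := hT.val τ
  have hz : lin w ((∅, 0) : Mo O b) = 0 := by unfold lin; simp
  refine ⟨co (∅, 0) (T τ), ?_, ?_⟩
  · have h1 := (mem_Cd.1 (h0 (∅, 0))).2
    rw [hz, sub_zero, hl, AZ_nat] at h1
    exact h1
  · apply co_ext
    intro m
    rw [map_smul, ← mon_zero, co_mon, smul_eq_mul]
    by_cases hm : ((∅, 0) : Mo O b) = m
    · rw [if_pos hm, mul_one, hm]
    · rw [if_neg hm, mul_zero]
      by_contra h2
      have h3 := ((mem_Cd.1 (h0 m)).1 h2).2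
      rw [hτ, sub_self] at h3
      exact hm (lin_eq_zero hT.pos h3).symm

omit [GradedAlgebra 𝒜] in
/-- The odd step for a generator of degree one. -/
theorem step_one [CharZero k] (hT : Gr 𝒜 δ w T) (hS : Cl k δ T S) {i : O}
    (hτ : Sum.inl i ∉ S) (hτ1 : δ (Sum.inl i) = 1) :
    Pool.Agent.Helper67.QB.OddStep T.d.toAddMonoidHom
      (fun n => (Ft k δ S n).toAddSubgroup)
      (fun n => (Ft k δ (insert (Sum.inl i) S) n).toAddSubgroup)
      (LinearMap.mulLeft R (gg (Sum.inl i))).toAddMonoidHom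
      (LinearMap.mulLeft R (T (Sum.inl i))).toAddMonoidHom 1 := by
  have hTg : T (Sum.inl i) ∈ Ft k δ S (δ (Sum.inl i) - 1) := by
    intro m
    refine mem_Cd.2 ⟨fun h0 => ?_, Submodule.mem_top⟩
    have h1 := (mem_Cd.1 (hT.val (Sum.inl i) m)).1 h0
    rw [hτ1, sub_self] at h1 ⊢
    have h2 := lin_eq_zero hT.pos h1.2
    subst h2
    exact ⟨⟨fun i hi => absurd hi (Finset.notMem_empty i), fun j hj => absurd rfl hj⟩, h1.2⟩
  have hst := oddStep (φ := fun _ => ⊤) hT hτ (fun _ _ => rfl)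
    (fun n x hx => d_Ft hS hx) (fun n x hx => by
      have := mul_mem (φ'' := fun _ => ⊤) (fun _ _ _ _ _ _ _ => Submodule.mem_top) hTg hx
      rwa [show δ (Sum.inl i) - 1 + n = n + δ (Sum.inl i) - 1 by ring] at this)
  rw [hτ1] at hst
  exact hst

/-- Graded Nakayama: exactness for `insert τ S`, `τ` of degree one, implies exactness for `S`. -/
theorem ex_of_insert [CharZero k] (hT : Gr 𝒜 δ w T) (hS : Cl k δ T S) {τ : O ⊕ Fin b}
    (hτ : τ ∉ S) (hτ1 : δ τ = 1) {n : ℤ}
    (h : Ex T.d.toAddMonoidHom (fun n => (Ft k δ (insert τ S) n).toAddSubgroup) n) :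
    Ex T.d.toAddMonoidHom (fun n => (Ft k δ S n).toAddSubgroup) n := by
  classical
  have hw : ∀ g, 0 ≤ w g := fun g => zero_le_one.trans (hT.wpos g)
  cases τ with
  | inr j =>
    obtain ⟨e, he⟩ := hT.even j
    omega
  | inl i =>
    have hst := step_one hT hS hτ hτ1
    obtain ⟨l, hl⟩ := Int.eq_ofNat_of_zero_le (hw (Sum.inl i))
    have hl1 : 1 ≤ l := by
      have := hT.wpos (Sum.inl i)
      omega
    obtain ⟨r, hr, hTr⟩ := val_one hT hτ1 hl
    -- homogeneous cycles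
    have key : ∀ p : ℕ, ∀ x ∈ Ft k δ S n, x ∈ Ww 𝒜 w p → T.d x = 0 →
        ∃ y ∈ Ft k δ S (n + 1), T.d y = x := by
      intro p
      induction p using Nat.strong_induction_on with
      | _ p ih =>
        intro x hx hxp hdx
        obtain ⟨c, hc, hdc, a, ha, hxa⟩ := hst.mem_z (n := n) hx
          (h x (Pc_mono (Set.subset_insert _ _) (fun _ _ _ => le_rfl) hx) hdx)
        rw [add_sub_cancel_right] at hc
        have hdc' : T.d c = 0 := hdc
        have hxa' : x = r • c + T.d a := by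
          have h1 : x = T (Sum.inl i) * c + T.d a := hxa
          rw [h1, hTr, smul_mul_assoc, one_mul]
        have h2 : x = piW 𝒜 w p (r • c) + T.d (piW 𝒜 w p a) := by
          rw [d_piW hT, ← map_add, ← hxa', piW_eq 𝒜 w p hxp]
        rw [piW_smul hw hr] at h2
        have ha' : piW 𝒜 w p a ∈ Ft k δ S (n + 1) := piW_Ft' 𝒜 w p ha
        by_cases hlp : l ≤ p
        · rw [if_pos hlp] at h2
          obtain ⟨y, hy, hdy⟩ := ih (p - l) (by omega) (piW 𝒜 w (p - l) c)
            (piW_Ft' 𝒜 w _ hc) (piW_mem 𝒜 w _ c) (by rw [d_piW hT, hdc', map_zero])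
          refine ⟨r • y + piW 𝒜 w p a, ?_, ?_⟩
          · refine Submodule.add_mem _ ?_ ha'
            intro m
            rw [map_smul]
            refine mem_Cd.2 ⟨fun h0 => (mem_Cd.1 (hy m)).1 fun h1 => h0 ?_, Submodule.mem_top⟩
            rw [h1, smul_zero]
          · rw [map_add, map_smul, hdy, ← h2]
        · rw [if_neg hlp, zero_add] at h2
          exact ⟨_, ha', h2.symm⟩
    intro x hx hdx
    have hx' : x ∈ Ft k δ S n := hx
    have hdx' : T.d x = 0 := hdx
    obtain ⟨N, hN⟩ := piW_fin 𝒜 w hw x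
    have h1 : ∀ p, ∃ y ∈ Ft k δ S (n + 1), T.d y = piW 𝒜 w p x := fun p =>
      key p _ (piW_Ft' 𝒜 w p hx') (piW_mem 𝒜 w p x) (by rw [d_piW hT, hdx', map_zero])
    choose y hy hdy using h1
    refine ⟨∑ p ∈ Finset.range N, y p, ?_, ?_⟩
    · change _ ∈ Ft k δ S (n + 1)
      exact Submodule.sum_mem _ fun p _ => hy p
    · change T.d (∑ p ∈ Finset.range N, y p) = x
      rw [map_sum, Finset.sum_congr rfl fun p _ => hdy p]
      exact hN.symm

/-- Exactness for `S ∪ P`, `P` a finite set of generators of degree one, implies exactness for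
`S`. -/
theorem ex_of_union [CharZero k] (hT : Gr 𝒜 δ w T) (hS : Cl k δ T S)
    (P : Finset (O ⊕ Fin b)) (hP : ∀ g ∈ P, δ g = 1) {n : ℤ}
    (h : Ex T.d.toAddMonoidHom (fun n => (Ft k δ (S ∪ P) n).toAddSubgroup) n) :
    Ex T.d.toAddMonoidHom (fun n => (Ft k δ S n).toAddSubgroup) n := by
  classical
  induction P using Finset.induction_on with
  | empty =>
    rw [Finset.coe_empty, Set.union_empty] at h
    exact h
  | insert g P hg ih =>
    have hP' : ∀ g ∈ P, δ g = 1 := fun g hg => hP g (Finset.mem_insert_of_mem hg)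
    refine ih hP' ?_
    rw [Finset.coe_insert, Set.union_insert] at h
    by_cases hgS : g ∈ S ∪ (P : Set (O ⊕ Fin b))
    · rwa [Set.insert_eq_of_mem hgS] at h
    · exact ex_of_insert hT (hS.union_one hT _ hP') hgS (hP g (Finset.mem_insert_self g P)) h

end Pool.Agent.Helper65.QB
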